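import Pool.Agent.H4.FD.PsetB

set_option autoImplicit false

/-!
Two involutions `x`, `y`: `y (x\y)⁻¹ = x`, and `(L y * (R x)⁻¹)²` is an inner mapping that
fixes `x` (`R x = J * L x * J`).
-/

namespace ALoop

open Equiv

variable {Q : Type*} {G : Subgroup (Perm Q)} {L : Q → Perm Q} {J : Perm Q} {e : Q}

namespace AL

theorem Dx_conj (h : AL G L J e) {x : Q} (hJx : J x = x) : (L x)⁻¹ * J * L x = D L J x := by
  have hLie : (L x)⁻¹ e = x := by rw [Perm.inv_eq_iff_eq]; exact (h.LxLx hJx).symm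
  have h1 := h.D_conj (G.inv_mem (h.memL x)) e
  rw [h.D_e, hLie, inv_inv] at h1
  exact h1

/-- `x\y` for involutions: `y (x\y)⁻¹ = x` -/
theorem L_J_div (h : AL G L J e) {x y : Q} (hJx : J x = x) (hJy : J y = y) :
    L y (J ((L x)⁻¹ y)) = x := by
  set p := (L x)⁻¹ y with hp
  have hxp : L x p = y := by rw [hp, apply_inv']
  have hJJ := h.JJ1
  have dx1 : D L J x = L x * J * (L x)⁻¹ := rfl
  have dx2 := (h.Dx_conj hJx).symm
  have dy1 : D L J y = L y * J * (L y)⁻¹ := rfl
  have dy2 := (h.Dx_conj hJy).symm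
  have dx3 : L x * D L J x * (L x)⁻¹ = J := by rw [dx2]; group
  have dy3 : L y * D L J y * (L y)⁻¹ = J := by rw [dy2]; group
  -- `D (y x)` and `D (x y)`
  have c1 : L y * D L J x * (L y)⁻¹ = J * (L x * D L J y * (L x)⁻¹) * J := by
    rw [h.D_conj (h.memL y), h.D_conj (h.memL x), h.D_J, h.aaip, hJx, hJy]
  -- `L x⁻¹ * L y` commutes with `D x * D y`
  have c2 : L y * (D L J x * D L J y) * (L y)⁻¹ = L x * (D L J x * D L J y) * (L x)⁻¹ := by
    calc L y * (D L J x * D L J y) * (L y)⁻¹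
        = (L y * D L J x * (L y)⁻¹) * (L y * D L J y * (L y)⁻¹) := by group
      _ = J * (L x * D L J y * (L x)⁻¹) * J * J := by rw [c1, dy3]
      _ = J * (L x * D L J y * (L x)⁻¹) * (J * J) := by group
      _ = J * (L x * D L J y * (L x)⁻¹) := by rw [hJJ, mul_one]
      _ = (L x * D L J x * (L x)⁻¹) * (L x * D L J y * (L x)⁻¹) := by rw [dx3]
      _ = L x * (D L J x * D L J y) * (L x)⁻¹ := by group
  -- the inner mapping `k`
  have hLxy : L x (L p x) = L y x := by
    have hf : (L y)⁻¹ * (L x * L p) ∈ G :=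
      G.mul_mem (G.inv_mem (h.memL _)) (G.mul_mem (h.memL _) (h.memL _))
    -- flexible law
    have hTG : (J * L x * J)⁻¹ * L x ∈ G :=
      G.mul_mem (G.inv_mem (h.JG _ (h.memL x))) (h.memL x)
    have e1 : ((J * L x * J)⁻¹) x = e := by
      rw [Perm.inv_eq_iff_eq]
      show x = J (L x (J e))
      rw [h.Je, h.Le, hJx]
    have hTe : ((J * L x * J)⁻¹ * L x) e = e := by
      show (J * L x * J)⁻¹ (L x e) = e
      rw [h.Le, e1]
    have e2 : ((J * L x * J)⁻¹) e = x := by
      rw [Perm.inv_eq_iff_eq]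
      show e = J (L x (J x))
      rw [hJx, h.LxLx hJx, h.Je]
    have hTx : ((J * L x * J)⁻¹ * L x) x = x := by
      show (J * L x * J)⁻¹ (L x x) = x
      rw [h.LxLx hJx, e2]
    have h3 := h.comL hTG hTe hTx
    have h4 : L x * (J * L x * J) = (J * L x * J) * L x := by
      have h5 : (J * L x * J)⁻¹ * L x = L x * (J * L x * J)⁻¹ := by
        have : (J * L x * J)⁻¹ * L x * L x = L x * (J * L x * J)⁻¹ * L x := by rw [h3]; group
        exact mul_right_cancel this
      calc L x * (J * L x * J)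
          = (J * L x * J) * ((J * L x * J)⁻¹ * L x) * (J * L x * J) := by group
        _ = (J * L x * J) * L x := by rw [h5]; group
    have h5 := congrArg (fun q : Perm Q => q p) h4
    have h6 : ∀ q : Q, (J * L x * J) q = L q x := by
      intro q
      show J (L x (J q)) = L q x
      rw [h.aaip, h.JJ, hJx]
    simp only [Perm.mul_apply] at h5
    have h7 : J (L x (J p)) = L p x := h6 p
    have h8 : J (L x (J (L x p))) = L (L x p) x := h6 (L x p)
    rw [h7, h8, hxp] at h5
    exact h5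
  set k := (L y)⁻¹ * (L x * L p) with hk
  have hkG : k ∈ G := G.mul_mem (G.inv_mem (h.memL _)) (G.mul_mem (h.memL _) (h.memL _))
  have hke : k e = e := by
    show (L y)⁻¹ (L x (L p e)) = e
    rw [h.Le, hxp, Perm.inv_eq_iff_eq, h.Le]
  have hkx : k x = x := by
    show (L y)⁻¹ (L x (L p x)) = x
    rw [hLxy, inv_apply']
  have hkD : k * D L J x = D L J x * k := (h.D_cent hkG x).2 hkx
  have hP : L p = (L x)⁻¹ * L y * k := by rw [hk]; group
  -- `L p * D x * (L p)⁻¹ * D x = D x * D y`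
  have c3 : L p * D L J x * (L p)⁻¹ * D L J x = D L J x * D L J y := by
    have hkc : k * D L J x * k⁻¹ = D L J x := by rw [hkD]; group
    calc L p * D L J x * (L p)⁻¹ * D L J x
        = (L x)⁻¹ * (L y * (k * D L J x * k⁻¹) * (L y)⁻¹) * L x * D L J x := by rw [hP]; group
      _ = (L x)⁻¹ * (L y * D L J x * (L y)⁻¹) * L x * ((L x)⁻¹ * J * L x) := by
          rw [hkc, h.Dx_conj hJx]
      _ = (L x)⁻¹ * (L y * D L J x * (L y)⁻¹) * J * L x := by group
      _ = (L x)⁻¹ * (J * (L x * D L J y * (L x)⁻¹) * J) * J * L x := by rw [c1]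
      _ = (L x)⁻¹ * J * L x * D L J y * (L x)⁻¹ * (J * J) * L x := by group
      _ = (L x)⁻¹ * J * L x * D L J y * (L x)⁻¹ * L x := by rw [hJJ, mul_one]
      _ = D L J x * D L J y := by rw [h.Dx_conj hJx]; group
  have hDe : D L J x e = e := by
    rw [dx1]
    show L x (J ((L x)⁻¹ e)) = e
    have : (L x)⁻¹ e = x := by rw [Perm.inv_eq_iff_eq]; exact (h.LxLx hJx).symm
    rw [this, hJx, h.LxLx hJx]
  have hDye : D L J y e = e := by
    rw [dy1]
    show L y (J ((L y)⁻¹ e)) = e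
    have : (L y)⁻¹ e = y := by rw [Perm.inv_eq_iff_eq]; exact (h.LxLx hJy).symm
    rw [this, hJy, h.LxLx hJy]
  have hDp : D L J x p = p := by
    rw [dx2]
    show (L x)⁻¹ (J (L x p)) = p
    rw [hxp, hJy]
  have hrG : D L J x * D L J y ∈ G := h.D_mul_mem x y
  have hre : (D L J x * D L J y) e = e := by
    show D L J x (D L J y e) = e
    rw [hDye, hDe]
  have hrp : (D L J x * D L J y) p = p := by
    rw [← c3]
    show L p (D L J x ((L p)⁻¹ (D L J x p))) = p
    have : (L p)⁻¹ p = e := by rw [Perm.inv_eq_iff_eq, h.Le]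
    rw [hDp, this, hDe, h.Le]
  have c4 := h.comL hrG hre hrp
  -- `k` commutes with `D x * D y`
  have c5 : k * (D L J x * D L J y) = (D L J x * D L J y) * k := by
    have h1 : (L y)⁻¹ * L x * (D L J x * D L J y) =
        (D L J x * D L J y) * ((L y)⁻¹ * L x) := by
      calc (L y)⁻¹ * L x * (D L J x * D L J y)
          = (L y)⁻¹ * (L x * (D L J x * D L J y) * (L x)⁻¹) * L x := by group
        _ = (L y)⁻¹ * (L y * (D L J x * D L J y) * (L y)⁻¹) * L x := by rw [c2]
        _ = (D L J x * D L J y) * ((L y)⁻¹ * L x) := by group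
    calc k * (D L J x * D L J y)
        = (L y)⁻¹ * L x * (L p * (D L J x * D L J y)) := by rw [hk]; group
      _ = (L y)⁻¹ * L x * (D L J x * D L J y) * L p := by rw [← c4]; group
      _ = (D L J x * D L J y) * k := by rw [h1, hk]; group
  have c6 : k * D L J y = D L J y * k := by
    have h1 : D L J x * (k * D L J y) = D L J x * (D L J y * k) := by
      calc D L J x * (k * D L J y) = (D L J x * k) * D L J y := by group
        _ = k * (D L J x * D L J y) := by rw [← hkD]; group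
        _ = D L J x * (D L J y * k) := by rw [c5]; group
    exact mul_left_cancel h1
  have hky : k y = y := (h.D_cent hkG y).1 c6
  have hkp : k p = p := by
    have h1 := h.aut hkG hke x p
    rw [hxp, hkx, hky] at h1
    rw [hp, Perm.eq_inv_iff_eq, ← h1]
  have hkJp : k (J p) = J p := by
    have h1 := congrArg (fun q : Perm Q => q p) (h.comJ k hkG hke)
    simp only [Perm.mul_apply] at h1
    rw [h1, hkp]
  have h9 : (L y)⁻¹ (L x (L p (J p))) = J p := hkJp
  rw [h.LJ, h.Le, Perm.inv_eq_iff_eq] at h9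
  exact h9.symm

/-- `(L y * (R x)⁻¹)²` fixes `e` and `x` -/
theorem kwx (h : AL G L J e) {x y : Q} (hJx : J x = x) (hJy : J y = y) :
    L y * (J * L x * J)⁻¹ * (L y * (J * L x * J)⁻¹) ∈ G ∧
    (L y * (J * L x * J)⁻¹ * (L y * (J * L x * J)⁻¹)) e = e ∧
    (L y * (J * L x * J)⁻¹ * (L y * (J * L x * J)⁻¹)) x = x := by
  have hG : L y * (J * L x * J)⁻¹ ∈ G :=
    G.mul_mem (h.memL y) (G.inv_mem (h.JG _ (h.memL x)))
  have e1 : ((J * L x * J)⁻¹) x = e := by
    rw [Perm.inv_eq_iff_eq]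
    show x = J (L x (J e))
    rw [h.Je, h.Le, hJx]
  have e2 : ((J * L x * J)⁻¹) e = x := by
    rw [Perm.inv_eq_iff_eq]
    show e = J (L x (J x))
    rw [hJx, h.LxLx hJx, h.Je]
  have e3 : ((J * L x * J)⁻¹) (L y x) = y := by
    rw [Perm.inv_eq_iff_eq]
    show L y x = J (L x (J y))
    rw [h.aaip, h.JJ, hJx]
  have e4 : ((J * L x * J)⁻¹) y = J ((L x)⁻¹ y) := by
    rw [Perm.inv_eq_iff_eq]
    show y = J (L x (J (J ((L x)⁻¹ y))))
    rw [h.JJ, apply_inv', hJy]
  refine ⟨G.mul_mem hG hG, ?_, ?_⟩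
  · show L y ((J * L x * J)⁻¹ (L y ((J * L x * J)⁻¹ e))) = e
    rw [e2, e3, h.LxLx hJy]
  · show L y ((J * L x * J)⁻¹ (L y ((J * L x * J)⁻¹ x))) = x
    rw [e1, h.Le, e4, h.L_J_div hJx hJy]

end AL

end ALoop
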